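import Pool.Agent.H91.PK.Om

/-!
PK DiA: Λ in one residue class through primitive characters.

Let L = log N, N ≥ 3, 1 ≤ d ≤ N, (N,d) = 1,
  A(d) = ∑_{n ≤ N, d | N - n} Λ(n) W(n),   MW = ∑_{n ≤ N} Λ(n) W(n).
Then |A(d) - MW/φ(d)| ≤ L² + (1/φ(d)) ∑_{χ mod d, χ ≠ 1} |TT N k χ*|, χ* = the primitive character inducing χ.

Proof.  d | N-n with (N,d)=1 forces (n,d)=1 and n ≡ N; by `DirichletCharacter.sum_char_inv_mul_char_eq`
  A(d) = (1/φ(d)) ∑_χ χ(N)⁻¹ TT N k χ  (|χ(N)⁻¹| ≤ 1).  For χ = 1: TT N k 1 = MW - ∑_{(n,d)>1} Λ(n)W(n).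
For every χ: TT N k χ = TT N k χ* - ∑_{(n,d)>1} Λ(n) χ*(n) W(n) (χ(n) = χ*(n) for (n,d)=1:
`DirichletCharacter.primitiveCharacter_apply_of_isCoprime`, and χ(n) = 0 otherwise).
Error: ∑_{n ≤ N, (n,d)>1} Λ(n) W(n) ≤ (4/27) ∑_{q | d} ∑_{j : q^j ≤ N} log q ≤ (4/27) ω(d) L ≤ (4/27)(1.45) L²  ≤ 0.22 L²
 (0 ≤ W ≤ 4/27 as log n/log N ≤ 1; 2^ω(d) ≤ d ≤ N).  Two such errors.
-/

set_option autoImplicit false

namespace Pool.Agent.H91.PK

open Finset

/-- total mass -/
noncomputable def MW (N k : ℕ) : ℝ := ∑ n ∈ Icc 1 N, ArithmeticFunction.vonMangoldt n * W N k n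

/-- mass of the `n` with `d ∣ N - n` -/
noncomputable def AW (N k d : ℕ) : ℝ :=
  ∑ n ∈ (Icc 1 N).filter (fun n => d ∣ N - n), ArithmeticFunction.vonMangoldt n * W N k n

theorem W_nonneg (N k n : ℕ) : 0 ≤ W N k n := by
  unfold W
  refine mul_nonneg (om_nonneg _) (pow_nonneg (div_nonneg ?_ ?_) _)
  · exact Real.log_natCast_nonneg n
  · exact Real.log_natCast_nonneg N

theorem W_le {N k n : ℕ} (hn : n ≤ N) : W N k n ≤ 4 / 27 := by
  unfold W
  have h1 : (Real.log n / Real.log N) ^ k ≤ 1 := by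
    refine pow_le_one₀ (div_nonneg (Real.log_natCast_nonneg n) (Real.log_natCast_nonneg N)) ?_
    refine div_le_one_of_le₀ ?_ (Real.log_natCast_nonneg N)
    rcases Nat.eq_zero_or_pos n with h | h
    · subst h; simpa using Real.log_natCast_nonneg N
    · exact Real.log_le_log (by exact_mod_cast h) (by exact_mod_cast hn)
  have h0 : 0 ≤ (Real.log n / Real.log N) ^ k :=
    pow_nonneg (div_nonneg (Real.log_natCast_nonneg n) (Real.log_natCast_nonneg N)) _
  calc om ((n : ℝ) / N) * (Real.log n / Real.log N) ^ k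
      ≤ (4 / 27) * 1 := mul_le_mul (om_le _) h1 h0 (by norm_num)
    _ = 4 / 27 := by norm_num

/-- The mass of the `n` not coprime to `d`. -/
noncomputable def DiA_E (N k d : ℕ) : ℝ :=
  ∑ n ∈ (Icc 1 N).filter (fun n => ¬ Nat.Coprime n d), ArithmeticFunction.vonMangoldt n * W N k n

theorem DiA_E_nonneg (N k d : ℕ) : 0 ≤ DiA_E N k d :=
  sum_nonneg fun _ _ => mul_nonneg ArithmeticFunction.vonMangoldt_nonneg (W_nonneg _ _ _)

theorem DiA_omega_le {d : ℕ} (hd : 1 ≤ d) : (d.primeFactors.card : ℝ) * Real.log 2 ≤ Real.log d := by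
  have h1 : 2 ^ d.primeFactors.card ≤ d := by
    calc 2 ^ d.primeFactors.card ≤ ∏ p ∈ d.primeFactors, p :=
          Finset.pow_card_le_prod _ _ _ (fun p hp => (Nat.prime_of_mem_primeFactors hp).two_le)
      _ ≤ d := Nat.le_of_dvd hd (Nat.prod_primeFactors_dvd d)
  have h2 : ((2 : ℝ) ^ d.primeFactors.card) ≤ d := by exact_mod_cast h1
  have h3 := Real.log_le_log (by positivity) h2
  rwa [Real.log_pow] at h3

theorem DiA_psi_noncoprime {N d : ℕ} (hN : 1 ≤ N) (hd : 1 ≤ d) :
    ∑ n ∈ (Icc 1 N).filter (fun n => ¬ Nat.Coprime n d), ArithmeticFunction.vonMangoldt n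
      ≤ (d.primeFactors.card : ℝ) * Real.log N := by
  classical
  have key : ∀ n ∈ (Icc 1 N).filter (fun n => ¬ Nat.Coprime n d),
      ArithmeticFunction.vonMangoldt n ≤ ∑ q ∈ d.primeFactors,
        (if n ∈ (Icc 1 (Nat.log q N)).image (fun j => q ^ j) then
          ArithmeticFunction.vonMangoldt n else 0) := by
    intro n hn
    rw [mem_filter, mem_Icc] at hn
    have hnn : ∀ q ∈ d.primeFactors,
        0 ≤ (if n ∈ (Icc 1 (Nat.log q N)).image (fun j => q ^ j) then
          ArithmeticFunction.vonMangoldt n else 0) := by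
      intro q _
      split_ifs
      · exact ArithmeticFunction.vonMangoldt_nonneg
      · exact le_rfl
    by_cases hp : IsPrimePow n
    · obtain ⟨p, j, hp1, hj, rfl⟩ := hp
      have hpp : p.Prime := Nat.prime_iff.mpr hp1
      have hpd : p ∣ d := by
        by_contra hcon
        exact hn.2 (Nat.Coprime.pow_left _ ((Nat.Prime.coprime_iff_not_dvd hpp).mpr hcon))
      have hmem : p ∈ d.primeFactors := Nat.mem_primeFactors.mpr ⟨hpp, hpd, by omega⟩
      refine le_trans ?_ (single_le_sum hnn hmem)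
      rw [if_pos]
      refine mem_image.mpr ⟨j, ?_, rfl⟩
      rw [mem_Icc]
      exact ⟨hj, (Nat.le_log_iff_pow_le hpp.one_lt (by omega)).mpr hn.1.2⟩
    · rw [ArithmeticFunction.vonMangoldt_eq_zero_iff.mpr hp]
      simp
  calc ∑ n ∈ (Icc 1 N).filter (fun n => ¬ Nat.Coprime n d), ArithmeticFunction.vonMangoldt n
      ≤ ∑ n ∈ (Icc 1 N).filter (fun n => ¬ Nat.Coprime n d), ∑ q ∈ d.primeFactors,
        (if n ∈ (Icc 1 (Nat.log q N)).image (fun j => q ^ j) then
          ArithmeticFunction.vonMangoldt n else 0) := sum_le_sum key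
    _ = ∑ q ∈ d.primeFactors, ∑ n ∈ (Icc 1 N).filter (fun n => ¬ Nat.Coprime n d),
        (if n ∈ (Icc 1 (Nat.log q N)).image (fun j => q ^ j) then
          ArithmeticFunction.vonMangoldt n else 0) := sum_comm
    _ ≤ ∑ q ∈ d.primeFactors, Real.log N := by
        refine sum_le_sum fun q hq => ?_
        have hqp := Nat.prime_of_mem_primeFactors hq
        rw [← sum_filter]
        calc ∑ n ∈ ((Icc 1 N).filter (fun n => ¬ Nat.Coprime n d)).filter
              (fun n => n ∈ (Icc 1 (Nat.log q N)).image (fun j => q ^ j)),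
              ArithmeticFunction.vonMangoldt n
            ≤ ∑ n ∈ (Icc 1 (Nat.log q N)).image (fun j => q ^ j),
              ArithmeticFunction.vonMangoldt n := by
              refine sum_le_sum_of_subset_of_nonneg ?_
                (fun _ _ _ => ArithmeticFunction.vonMangoldt_nonneg)
              intro n hn
              exact (mem_filter.mp hn).2
          _ = ∑ j ∈ Icc 1 (Nat.log q N), ArithmeticFunction.vonMangoldt (q ^ j) := by
              refine sum_image ?_
              intro a _ b _ hab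
              exact Nat.pow_right_injective hqp.two_le hab
          _ = ∑ j ∈ Icc 1 (Nat.log q N), Real.log q := by
              refine sum_congr rfl fun j hj => ?_
              rw [mem_Icc] at hj
              rw [ArithmeticFunction.vonMangoldt_apply_pow (by omega),
                ArithmeticFunction.vonMangoldt_apply_prime hqp]
          _ = (Nat.log q N : ℝ) * Real.log q := by
              rw [sum_const, Nat.card_Icc, nsmul_eq_mul]
              norm_num
          _ ≤ Real.log N := by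
              rw [← Real.log_pow]
              refine Real.log_le_log ?_ ?_
              · have : (0 : ℝ) < q := by exact_mod_cast hqp.pos
                positivity
              · exact_mod_cast Nat.pow_log_le_self q (by omega)
    _ = (d.primeFactors.card : ℝ) * Real.log N := by
        rw [sum_const, nsmul_eq_mul]

theorem DiA_E_le {N k d : ℕ} (hN : 3 ≤ N) (hd : 1 ≤ d) (hdN : d ≤ N) :
    DiA_E N k d ≤ (1 / 2) * (Real.log N) ^ 2 := by
  have hL : 0 ≤ Real.log N := Real.log_natCast_nonneg N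
  have h1 : DiA_E N k d ≤ (4 / 27) * ((d.primeFactors.card : ℝ) * Real.log N) := by
    calc DiA_E N k d ≤ ∑ n ∈ (Icc 1 N).filter (fun n => ¬ Nat.Coprime n d),
          (4 / 27) * ArithmeticFunction.vonMangoldt n := by
          refine sum_le_sum fun n hn => ?_
          rw [mem_filter, mem_Icc] at hn
          rw [mul_comm]
          exact mul_le_mul_of_nonneg_right (W_le hn.1.2) ArithmeticFunction.vonMangoldt_nonneg
      _ = (4 / 27) * ∑ n ∈ (Icc 1 N).filter (fun n => ¬ Nat.Coprime n d),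
          ArithmeticFunction.vonMangoldt n := by rw [mul_sum]
      _ ≤ _ := mul_le_mul_of_nonneg_left (DiA_psi_noncoprime (by omega) hd) (by norm_num)
  have h2 := DiA_omega_le hd
  have h3 : Real.log d ≤ Real.log N :=
    Real.log_le_log (by exact_mod_cast hd) (by exact_mod_cast hdN)
  have h4 : (0.6931471803 : ℝ) < Real.log 2 := Real.log_two_gt_d9
  have h5 : (0 : ℝ) ≤ d.primeFactors.card := Nat.cast_nonneg _
  have h6 : (d.primeFactors.card : ℝ) * 0.6931471803 ≤ Real.log N := by nlinarith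
  have h7 : (d.primeFactors.card : ℝ) ≤ 2 * Real.log N := by nlinarith
  nlinarith [mul_le_mul_of_nonneg_right h7 hL]

theorem DiA_norm_char_le {m : ℕ} (χ : DirichletCharacter ℂ m) (a : ZMod m) : ‖χ a‖ ≤ 1 :=
  χ.norm_le_one a

/-- orthogonality -/
theorem DiA_orth {N k d : ℕ} (hd : 1 ≤ d) (hc : Nat.Coprime N d) :
    (d.totient : ℂ) * ((AW N k d : ℝ) : ℂ)
      = ∑ χ : DirichletCharacter ℂ d, χ ((N : ZMod d)⁻¹) * TT N k (fun n => χ (n : ZMod d)) := by
  have : NeZero d := ⟨by omega⟩
  have hu : IsUnit (N : ZMod d) := (ZMod.isUnit_iff_coprime N d).mpr hc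
  unfold TT AW
  simp only [mul_sum]
  rw [sum_comm]
  rw [Complex.ofReal_sum, mul_sum, sum_filter]
  refine sum_congr rfl fun n hn => ?_
  rw [mem_Icc] at hn
  have h1 : ∀ χ : DirichletCharacter ℂ d,
      χ ((N : ZMod d)⁻¹) * (((ArithmeticFunction.vonMangoldt n : ℝ) : ℂ) *
        (χ (n : ZMod d) * ((W N k n : ℝ) : ℂ)))
      = (χ ((N : ZMod d)⁻¹) * χ (n : ZMod d)) * (((ArithmeticFunction.vonMangoldt n : ℝ) : ℂ) *
        ((W N k n : ℝ) : ℂ)) := by
    intro χ; ring
  simp only [h1]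
  rw [← sum_mul, DirichletCharacter.sum_char_inv_mul_char_eq ℂ hu]
  have hiff : ((N : ZMod d) = (n : ZMod d)) ↔ d ∣ N - n := by
    rw [eq_comm]
    rw [ZMod.natCast_eq_natCast_iff]
    exact Nat.modEq_iff_dvd' hn.2
  by_cases h : d ∣ N - n
  · rw [if_pos h, if_pos (hiff.mpr h)]
    push_cast
    ring
  · rw [if_neg h, if_neg (fun h' => h (hiff.mp h'))]
    simp

/-- values of the primitive character -/
theorem DiA_prim_eq {d n : ℕ} (χ : DirichletCharacter ℂ d) (h : Nat.Coprime n d) :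
    χ.primitiveCharacter (n : ZMod χ.conductor) = χ (n : ZMod d) := by
  have h1 : IsCoprime (n : ℤ) (d : ℤ) := Nat.isCoprime_iff_coprime.mpr h
  have h2 := DirichletCharacter.primitiveCharacter_apply_of_isCoprime χ h1
  simpa using h2

theorem DiA_char_zero {d n : ℕ} (χ : DirichletCharacter ℂ d) (h : ¬ Nat.Coprime n d) :
    χ (n : ZMod d) = 0 := by
  refine χ.map_nonunit ?_
  intro hu
  exact h ((ZMod.isUnit_iff_coprime n d).mp hu)

theorem DiA_TT_sub {N k d : ℕ} (χ : DirichletCharacter ℂ d) :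
    ‖TT N k (fun n => χ (n : ZMod d))‖
      ≤ ‖TT N k (fun n => χ.primitiveCharacter (n : ZMod χ.conductor))‖ + DiA_E N k d := by
  have h1 : TT N k (fun n => χ.primitiveCharacter (n : ZMod χ.conductor))
      - TT N k (fun n => χ (n : ZMod d))
      = ∑ n ∈ (Icc 1 N).filter (fun n => ¬ Nat.Coprime n d),
        ((ArithmeticFunction.vonMangoldt n : ℝ) : ℂ) *
          (χ.primitiveCharacter (n : ZMod χ.conductor) * ((W N k n : ℝ) : ℂ)) := by
    unfold TT
    rw [← sum_sub_distrib, sum_filter]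
    refine sum_congr rfl fun n _ => ?_
    by_cases h : Nat.Coprime n d
    · rw [if_neg (not_not.mpr h)]
      simp only [DiA_prim_eq χ h, sub_self]
    · rw [if_pos h]
      simp only [DiA_char_zero χ h, zero_mul, mul_zero, sub_zero]
  have h2 : ‖TT N k (fun n => χ.primitiveCharacter (n : ZMod χ.conductor))
      - TT N k (fun n => χ (n : ZMod d))‖ ≤ DiA_E N k d := by
    rw [h1]
    refine (norm_sum_le _ _).trans ?_
    refine sum_le_sum fun n _ => ?_
    rw [norm_mul, norm_mul, Complex.norm_real, Complex.norm_real, Real.norm_of_nonneg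
      ArithmeticFunction.vonMangoldt_nonneg, Real.norm_of_nonneg (W_nonneg _ _ _)]
    refine mul_le_mul_of_nonneg_left ?_ ArithmeticFunction.vonMangoldt_nonneg
    calc ‖χ.primitiveCharacter (n : ZMod χ.conductor)‖ * W N k n ≤ 1 * W N k n :=
          mul_le_mul_of_nonneg_right (DiA_norm_char_le _ _) (W_nonneg _ _ _)
      _ = W N k n := one_mul _
  calc ‖TT N k (fun n => χ (n : ZMod d))‖
      = ‖TT N k (fun n => χ.primitiveCharacter (n : ZMod χ.conductor))
        - (TT N k (fun n => χ.primitiveCharacter (n : ZMod χ.conductor))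
          - TT N k (fun n => χ (n : ZMod d)))‖ := by congr 1; ring
    _ ≤ _ := (norm_sub_le _ _).trans (by linarith)

theorem DiA_TT_one {N k d : ℕ} :
    TT N k (fun n => (1 : DirichletCharacter ℂ d) (n : ZMod d))
      = ((MW N k - DiA_E N k d : ℝ) : ℂ) := by
  unfold TT MW DiA_E
  rw [sum_filter, ← sum_sub_distrib, Complex.ofReal_sum]
  refine sum_congr rfl fun n _ => ?_
  by_cases h : Nat.Coprime n d
  · rw [if_neg (not_not.mpr h)]
    have : (1 : DirichletCharacter ℂ d) (n : ZMod d) = 1 :=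
      MulChar.one_apply ((ZMod.isUnit_iff_coprime n d).mpr h)
    simp only [this]
    push_cast
    ring
  · rw [if_pos h]
    simp only [DiA_char_zero _ h]
    simp

theorem AW_sub_le {N k d : ℕ} (hN : 3 ≤ N) (hd : 1 ≤ d) (hdN : d ≤ N) (hc : Nat.Coprime N d) :
    |AW N k d - MW N k / d.totient| ≤ (Real.log N) ^ 2
      + (1 / (d.totient : ℝ)) * ∑ χ ∈ Nch d,
          ‖TT N k (fun n => χ.primitiveCharacter (n : ZMod χ.conductor))‖ := by
  classical
  have : NeZero d := ⟨by omega⟩
  have hφ : 0 < d.totient := Nat.totient_pos.mpr hd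
  have hφR : (0 : ℝ) < d.totient := by exact_mod_cast hφ
  have hφC : (d.totient : ℂ) ≠ 0 := by exact_mod_cast hφ.ne'
  set E := DiA_E N k d with hE
  have hE0 : 0 ≤ E := DiA_E_nonneg _ _ _
  have hEle : E ≤ (1 / 2) * (Real.log N) ^ 2 := DiA_E_le hN hd hdN
  have hNch : Nch d = univ.erase (1 : DirichletCharacter ℂ d) := by
    ext χ; rw [mem_Nch]; simp
  have horth := DiA_orth (k := k) hd hc
  have hone : (1 : DirichletCharacter ℂ d) ((N : ZMod d)⁻¹) = 1 := by
    refine MulChar.one_apply ?_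
    have hu : IsUnit (N : ZMod d) := (ZMod.isUnit_iff_coprime N d).mpr hc
    obtain ⟨u, hu⟩ := hu
    rw [← hu, ZMod.inv_coe_unit]
    exact Units.isUnit _
  rw [← Finset.add_sum_erase univ _ (mem_univ (1 : DirichletCharacter ℂ d)), ← hNch, hone,
    one_mul, DiA_TT_one] at horth
  have h1 : ((d.totient * AW N k d - MW N k : ℝ) : ℂ)
      = - ((E : ℝ) : ℂ) + ∑ χ ∈ Nch d, χ ((N : ZMod d)⁻¹) * TT N k (fun n => χ (n : ZMod d)) := by
    push_cast
    rw [horth]
    push_cast
    ring
  have hcard : (Nch d).card + 1 = d.totient := by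
    rw [hNch, card_erase_of_mem (mem_univ _), card_univ, ← Nat.card_eq_fintype_card,
      DirichletCharacter.card_eq_totient_of_hasEnoughRootsOfUnity ℂ d]
    omega
  have hcardR : ((Nch d).card : ℝ) + 1 = d.totient := by exact_mod_cast hcard
  have h2 : |(d.totient : ℝ) * AW N k d - MW N k| ≤ E * d.totient
      + ∑ χ ∈ Nch d, ‖TT N k (fun n => χ.primitiveCharacter (n : ZMod χ.conductor))‖ := by
    have h3 : |(d.totient : ℝ) * AW N k d - MW N k|
        = ‖((d.totient * AW N k d - MW N k : ℝ) : ℂ)‖ := by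
      rw [Complex.norm_real, Real.norm_eq_abs]
    rw [h3, h1]
    refine (norm_add_le _ _).trans ?_
    rw [norm_neg, Complex.norm_real, Real.norm_of_nonneg hE0]
    have h4 : ‖∑ χ ∈ Nch d, χ ((N : ZMod d)⁻¹) * TT N k (fun n => χ (n : ZMod d))‖
        ≤ ∑ χ ∈ Nch d, (‖TT N k (fun n => χ.primitiveCharacter (n : ZMod χ.conductor))‖ + E) := by
      refine (norm_sum_le _ _).trans (sum_le_sum fun χ _ => ?_)
      rw [norm_mul]
      calc ‖χ ((N : ZMod d)⁻¹)‖ * ‖TT N k (fun n => χ (n : ZMod d))‖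
          ≤ 1 * ‖TT N k (fun n => χ (n : ZMod d))‖ :=
            mul_le_mul_of_nonneg_right (DiA_norm_char_le _ _) (norm_nonneg _)
        _ ≤ _ := by rw [one_mul]; exact DiA_TT_sub χ
    rw [sum_add_distrib, sum_const, nsmul_eq_mul] at h4
    have h5 : E * (d.totient : ℝ) = E + ((Nch d).card : ℝ) * E := by rw [← hcardR]; ring
    linarith
  have h6 : AW N k d - MW N k / d.totient
      = (1 / (d.totient : ℝ)) * ((d.totient : ℝ) * AW N k d - MW N k) := by
    field_simp
  rw [h6, abs_mul, abs_of_pos (by positivity : (0 : ℝ) < 1 / (d.totient : ℝ))]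
  have h7 : (1 / (d.totient : ℝ)) * |(d.totient : ℝ) * AW N k d - MW N k|
      ≤ (1 / (d.totient : ℝ)) * (E * d.totient
        + ∑ χ ∈ Nch d, ‖TT N k (fun n => χ.primitiveCharacter (n : ZMod χ.conductor))‖) :=
    mul_le_mul_of_nonneg_left h2 (by positivity)
  have h8 : (1 / (d.totient : ℝ)) * (E * d.totient
        + ∑ χ ∈ Nch d, ‖TT N k (fun n => χ.primitiveCharacter (n : ZMod χ.conductor))‖)
      = E + (1 / (d.totient : ℝ)) * ∑ χ ∈ Nch d,
          ‖TT N k (fun n => χ.primitiveCharacter (n : ZMod χ.conductor))‖ := by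
    rw [mul_add]
    congr 1
    field_simp
  have h9 : 0 ≤ (Real.log N) ^ 2 := sq_nonneg _
  linarith

end Pool.Agent.H91.PK
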